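import Pool.Agent.H6.LH.Cor

set_option autoImplicit false

/-!
PROJECT LH (MP_bf82d2_ag), module All.
-/

namespace Pool.Agent.H6.LH

open Finset
open Pool.Agent.H82.CO (chi quadInv nu genus eps zeta rt)

theorem all : ∃ ε : ℝ, 0 < ε ∧ ∀ (G : Type) [Group G] [Fintype G] (h N : ℕ) (a b : Fin h → G)
    (s : Fin N → G), (h = 0 → 4 ≤ N) → (∀ i, s i ≠ 1) →
    (List.ofFn fun j => a j * b j * (a j)⁻¹ * (b j)⁻¹).prod * (List.ofFn s).prod = 1 →
    Subgroup.closure (Set.range a ∪ Set.range b ∪ Set.range s) = ⊤ → 1 < genusB h s →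
    ε * genusB h s - 7 ≤ (quadB h s).re - (3 * (h : ℝ) - 3 + N) ∧
      (h = 0 → ε * genusB h s - 4 ≤ (quadB h s).re - (3 * (h : ℝ) - 3 + N)) ∧
      (Nat.card G : ℝ) ≤ 12 * (genusB h s - 1) ∧ (h : ℝ) ≤ genusB h s ∧
      (N : ℝ) ≤ 2 * genusB h s + 2 ∧ (h = 0 → (quadB h s).re ≤ (N : ℝ) - 3 → N ≤ 14) := by
  obtain ⟨ε, hε, h⟩ := main
  refine ⟨ε, hε, fun G _ _ h' N a b s hN hs hp hgen hg => ?_⟩
  obtain ⟨h1, h2⟩ := h G h' N a b s hN hs hp hgen hg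
  refine ⟨h1, h2, card_le h' s hN hs hg, base_le h' s hs hg, branch_le h' s hN hs hg, fun h0 hd => ?_⟩
  by_cases h6 : 6 ≤ N
  · subst h0
    have h3 : (quadB 0 s).re = (quadInv s).re := by
      rw [quadB_eq]
      push_cast
      ring
    rw [h3] at hd
    exact (Pool.Agent.H82.CO.bounds s hs h6 hd).1
  · omega

end Pool.Agent.H6.LH
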