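import Pool.Agent.H6.LH.Qua
import Pool.Agent.H6.LG.Big6

set_option autoImplicit false

/-!
PROJECT LH (MP_bf82d2_ag), module BigH.  Six or more branch points, base genus `h ≥ 1`.
PROOF. `quadB_eq`, `big6` (which is formal in `s`: no relation, no generation): `quadB - (3h - 3 + N) = (quadInv - (N - 3)) + h (1 + n (nu - 2) / 2) + h^2 n / 2 + h t / 2 - 3 h
≥ (genus - 1) / 1000 - 3 + h (n (nu - 2) / 2 + h n / 2 - 2)`, `nu ≥ N / 2 ≥ 3` (`nu_ge`), `n ≥ 2`, so the last term is `≥ h (n (1 + h) / 2 - 2) ≥ h n / 1000 - 1`, and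
`genusB = genus + h n` (`genus_eq`, `genusB_eq`).
-/

namespace Pool.Agent.H6.LH

open Finset
open Pool.Agent.H82.CO (chi quadInv nu genus eps zeta rt)

variable {G : Type} [Group G] [Fintype G] {N : ℕ}

theorem bigH (h : ℕ) (hh : 1 ≤ h) (s : Fin N → G) (hs : ∀ i, s i ≠ 1) (hN : 6 ≤ N) :
    1 / 1000 * genusB h s - 5 ≤ (quadB h s).re - (3 * (h : ℝ) - 3 + N) := by
  have h1 := Pool.Agent.H6.LG.big6 s hs hN
  have h2 := Pool.Agent.H82.CO.nu_ge s hs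
  have h3 := Pool.Agent.H82.CO.genus_eq s
  have ht : 1 ≤ rt (1 : G) := Pool.Agent.H82.CO.one_le_rt_one
  have hN' : (6 : ℝ) ≤ N := by exact_mod_cast hN
  have hnu : 3 ≤ nu s := by linarith
  have hn : (2 : ℝ) ≤ (Nat.card G : ℝ) := by
    have h4 : Nontrivial G := ⟨⟨s ⟨0, by omega⟩, 1, hs _⟩⟩
    have h5 : 1 < Nat.card G := by
      rw [Nat.card_eq_fintype_card]
      exact Fintype.one_lt_card
    exact_mod_cast h5
  have hh' : (1 : ℝ) ≤ (h : ℝ) := by exact_mod_cast hh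
  rw [quadB_eq, genusB_eq]
  obtain ⟨x, hx⟩ : ∃ x : ℝ, x = (h : ℝ) := ⟨_, rfl⟩
  obtain ⟨n, hn'⟩ : ∃ n : ℝ, n = (Nat.card G : ℝ) := ⟨_, rfl⟩
  rw [← hx] at hh' ⊢
  rw [← hn'] at h3 hn ⊢
  have hx0 : 0 ≤ x := by linarith
  have hn0 : 0 ≤ n := by linarith
  have e1 : x * n ≤ x * (n * (nu s - 2)) :=
    mul_le_mul_of_nonneg_left (by nlinarith) hx0
  have e2 : 0 ≤ x * rt (1 : G) := mul_nonneg hx0 (by linarith)
  have e3 : 2 * x ≤ x * n := by nlinarith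
  have e4 : 2 * x * x ≤ x * (x * n) := by nlinarith
  have e5 : 0 ≤ (x - 1 / 2) ^ 2 := sq_nonneg _
  have e6 : (quadInv s).re ≥ 1 / 1000 * (n * (nu s - 2) / 2) - 3 + ((N : ℝ) - 3) := by
    rw [h3] at h1
    linarith
  nlinarith [e1, e2, e3, e4, e5, e6]

end Pool.Agent.H6.LH
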