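import Pool.Agent.H11.GQ.Wgt

set_option autoImplicit false

/-!
PROJECT LH (MP_bf82d2_ag), module Two.  Group theory: `G / K` is abelian and generated by two elements.
PROOF. `Q = G / K` is commutative: it is generated by the images `u, v` of `a, b` (the `s i` are in `K`), which commute as the product of the commutator of `a, b` and elements of
`K` is `1`. `rk K 1 = #{x : x ^ 2 ∈ K} = |K| * #{q : Q // q ^ 2 = 1}` (`Pool.Agent.H11.GQ.rk`; each coset of `K` has `|K|` elements). Squaring is a homomorphism of `Q`,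
its kernel has `|Q| / |Q^2| = |Q / Q^2|` elements, and every element of `Q` is `u ^ i * v ^ j` times a square with `i, j ∈ {0, 1}`: at most `4` cosets of the squares.
-/

namespace Pool.Agent.H6.LH

open Finset
open Pool.Agent.H11.GQ (rk)

private theorem index_sq_Two {Q : Type} [CommGroup Q] (u v : Q)
    (h : Subgroup.closure {u, v} = ⊤) : (powMonoidHom 2 : Q →* Q).range.index ≤ 4 := by
  have hsurj : Function.Surjective (fun p : Fin 2 × Fin 2 =>
      (QuotientGroup.mk (u ^ (p.1 : ℕ) * v ^ (p.2 : ℕ)) : Q ⧸ (powMonoidHom 2 : Q →* Q).range)) := by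
    intro q
    obtain ⟨x, rfl⟩ := QuotientGroup.mk_surjective q
    have hx : x ∈ Subgroup.closure {u, v} := by rw [h]; exact Subgroup.mem_top x
    obtain ⟨m, n, rfl⟩ := Subgroup.mem_closure_pair.1 hx
    have key : ∀ m : ℤ, ∃ (i : Fin 2) (m' : ℤ), m = (i : ℕ) + 2 * m' := by
      intro m
      rcases Int.emod_two_eq_zero_or_one m with hm | hm
      · exact ⟨0, m / 2, by simp; omega⟩
      · exact ⟨1, m / 2, by simp; omega⟩
    obtain ⟨i, m', hm⟩ := key m
    obtain ⟨j, n', hn⟩ := key n
    refine ⟨(i, j), ?_⟩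
    rw [QuotientGroup.eq]
    refine ⟨u ^ m' * v ^ n', ?_⟩
    rw [powMonoidHom_apply, hm, hn, zpow_add, zpow_add, zpow_natCast, zpow_natCast, zpow_mul, zpow_mul]
    have e1 : (u ^ (2 : ℤ)) ^ m' = (u ^ m') ^ 2 := by
      rw [← zpow_mul, mul_comm, zpow_mul]; exact zpow_ofNat _ 2
    have e2 : (v ^ (2 : ℤ)) ^ n' = (v ^ n') ^ 2 := by
      rw [← zpow_mul, mul_comm, zpow_mul]; exact zpow_ofNat _ 2
    rw [e1, e2, mul_pow]
    generalize u ^ (i : ℕ) = A
    generalize v ^ (j : ℕ) = B
    generalize (u ^ m') ^ 2 = C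
    generalize (v ^ n') ^ 2 = D
    rw [mul_inv]
    calc C * D = (A⁻¹ * A) * (B⁻¹ * B) * (C * D) := by simp
      _ = A⁻¹ * B⁻¹ * (A * C * (B * D)) := by
        simp only [mul_comm, mul_left_comm, mul_assoc]
  rw [Subgroup.index]
  calc Nat.card (Q ⧸ (powMonoidHom 2 : Q →* Q).range) ≤ Nat.card (Fin 2 × Fin 2) :=
        Nat.card_le_card_of_surjective _ hsurj
    _ = 4 := by simp

private theorem card_ker_Two {Q : Type} [CommGroup Q] [Finite Q] (u v : Q)
    (h : Subgroup.closure {u, v} = ⊤) : Nat.card (powMonoidHom 2 : Q →* Q).ker ≤ 4 := by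
  have h1 := (powMonoidHom 2 : Q →* Q).ker.card_mul_index
  have h2 := (powMonoidHom 2 : Q →* Q).range.card_mul_index
  rw [Subgroup.index_ker] at h1
  have h3 : Nat.card (powMonoidHom 2 : Q →* Q).ker = (powMonoidHom 2 : Q →* Q).range.index := by
    have hpos : 0 < Nat.card (powMonoidHom 2 : Q →* Q).range := Nat.card_pos
    apply Nat.eq_of_mul_eq_mul_left hpos
    rw [h2, ← h1, mul_comm]
  rw [h3]
  exact index_sq_Two u v h

private theorem rk_le_comm_Two {G : Type} [Group G] [Fintype G] (K : Subgroup G) [K.Normal]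
    (u v : G ⧸ K) (h : Subgroup.closure {u, v} = ⊤) (hc : ∀ x y : G ⧸ K, x * y = y * x) :
    rk K 1 ≤ 4 * (Nat.card K : ℝ) := by
  classical
  let inst : CommGroup (G ⧸ K) := { QuotientGroup.Quotient.group K with mul_comm := hc }
  have h4 : Nat.card (powMonoidHom 2 : G ⧸ K →* G ⧸ K).ker ≤ 4 := card_ker_Two u v h
  set L : Subgroup (G ⧸ K) := (powMonoidHom 2 : G ⧸ K →* G ⧸ K).ker with hL
  have h1 : rk K 1 = (Nat.card (L.comap (QuotientGroup.mk' K)) : ℝ) := by
    unfold rk
    rw [Finset.sum_boole, Nat.card_eq_fintype_card, Fintype.card_subtype]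
    congr 2
    ext x
    simp only [mem_filter, mem_univ, true_and, mul_one, inv_mem_iff, Subgroup.mem_comap]
    rw [hL, MonoidHom.mem_ker, powMonoidHom_apply, ← map_pow, QuotientGroup.mk'_apply,
      QuotientGroup.eq_one_iff]
  have h2 : Nat.card (L.comap (QuotientGroup.mk' K)) = Nat.card L * Nat.card K := by
    have e1 := (L.comap (QuotientGroup.mk' K)).card_mul_index
    rw [Subgroup.index_comap_of_surjective _ (QuotientGroup.mk'_surjective K)] at e1
    have e2 := L.card_mul_index
    have e3 := K.card_mul_index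
    have e4 : K.index = Nat.card (G ⧸ K) := rfl
    rw [e4, ← e2] at e3
    have hpos : 0 < L.index := Nat.pos_of_ne_zero L.index_ne_zero_of_finite
    apply Nat.eq_of_mul_eq_mul_right hpos
    rw [e1, ← e3]
    ring
  rw [h1, h2]
  push_cast
  have : (Nat.card L : ℝ) ≤ 4 := by exact_mod_cast h4
  exact mul_le_mul_of_nonneg_right this (Nat.cast_nonneg _)

theorem rk_le_four {G : Type} [Group G] [Fintype G] {N : ℕ} (s : Fin N → G) (a b : G)
    (hp : a * b * a⁻¹ * b⁻¹ * (List.ofFn s).prod = 1) (hg : Subgroup.closure ({a, b} ∪ Set.range s) = ⊤)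
    (K : Subgroup G) [K.Normal] (hK : ∀ i, s i ∈ K) : rk K 1 ≤ 4 * (Nat.card K : ℝ) := by
  classical
  have hprod : (List.ofFn s).prod ∈ K := by
    apply Subgroup.list_prod_mem
    intro x hx
    rw [List.mem_ofFn] at hx
    obtain ⟨i, rfl⟩ := hx
    exact hK i
  set u : G ⧸ K := QuotientGroup.mk' K a with hu
  set v : G ⧸ K := QuotientGroup.mk' K b with hv
  have huv : u * v = v * u := by
    have e := congrArg (QuotientGroup.mk' K) hp
    rw [map_mul, map_mul, map_mul, map_mul, map_inv, map_inv, map_one,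
      show QuotientGroup.mk' K (List.ofFn s).prod = 1 from
        (QuotientGroup.eq_one_iff _).2 hprod, mul_one] at e
    have e' : u * v * u⁻¹ * v⁻¹ = 1 := e
    have e2 : u * v * u⁻¹ = v := mul_inv_eq_one.1 e'
    exact mul_inv_eq_iff_eq_mul.1 e2
  have hgen : Subgroup.closure {u, v} = ⊤ := by
    have e := congrArg (Subgroup.map (QuotientGroup.mk' K)) hg
    rw [MonoidHom.map_closure, Subgroup.map_top_of_surjective _ (QuotientGroup.mk'_surjective K)] at e
    rw [eq_top_iff, ← e, Subgroup.closure_le]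
    rintro _ ⟨x, hx, rfl⟩
    rcases hx with hx | ⟨i, rfl⟩
    · rcases hx with rfl | hx
      · exact Subgroup.subset_closure (Or.inl rfl)
      · rw [Set.mem_singleton_iff] at hx
        subst hx
        exact Subgroup.subset_closure (Or.inr rfl)
    · have : QuotientGroup.mk' K (s i) = 1 := (QuotientGroup.eq_one_iff _).2 (hK i)
      rw [this]
      exact one_mem _
  have hc1 : ∀ w : G ⧸ K, w * u = u * w → w * v = v * w → ∀ x : G ⧸ K, w * x = x * w := by
    intro w hwu hwv x
    have hx : x ∈ Subgroup.closure {u, v} := by rw [hgen]; exact Subgroup.mem_top x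
    have hle : Subgroup.closure {u, v} ≤ Subgroup.centralizer {w} := by
      rw [Subgroup.closure_le]
      intro y hy
      rw [SetLike.mem_coe, Subgroup.mem_centralizer_singleton_iff]
      rcases hy with rfl | hy
      · exact hwu.symm
      · rw [Set.mem_singleton_iff] at hy
        subst hy
        exact hwv.symm
    have := hle hx
    rw [Subgroup.mem_centralizer_singleton_iff] at this
    exact this.symm
  have hcu := hc1 u rfl huv
  have hcv := hc1 v huv.symm rfl
  exact rk_le_comm_Two K u v hgen fun x y => hc1 x (hcu x).symm (hcv x).symm y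

end Pool.Agent.H6.LH
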