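import Pool.Agent.H6.LH.Rep1
import Pool.Agent.H6.LH.Two
import Pool.Agent.H11.GQ.Main

set_option autoImplicit false

/-!
PROJECT LH (MP_bf82d2_ag), module GQ1.  Base genus `1`: the order of `G` is at most linear in `quadB 1 s`.
PROOF. As `Pool.Agent.H6.LG.gq` (`Pool/Agent/H6/LG/GQL.lean`). `key1`: `frm` and `fix_le` with `exists_chi1`, `chiB_eq`:
`n |K| + (n / 2) (rk K 1 (nuK - 2) - ε n N) + rk K 1 * n ≤ ∑ rk K g Re (chiB 1 s g) ≤ 2 n |K| quadB`. `gq1`: `K` from `exists_max` with `e = 420000`, `c ∈ K`,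
`rk K 1 ≥ n / 1000`. If some `s i ∉ K` then `nuK ≥ 1 / 2` (all terms are `≥ 0`, this one is `≥ 1 / 2`), so `(n / 2) (n / 2000 - n / 84000) ≤ 2 n |K| δ`, impossible if
`n > B (δ + 1)`, `B = 504000 b + 1100`. So all `s i ∈ K` and `n / 1000 ≤ rk K 1 ≤ 4 |K| ≤ 4 b` (`rk_le_four`): impossible as well.
-/

namespace Pool.Agent.H6.LH

open Finset Module Pool.Agent.H11.GQ
open Pool.Agent.H82.CO (chi quadInv nu genus eps zeta rt)

theorem key1 {G : Type} [Group G] [Fintype G] {N : ℕ} (s : Fin N → G) (a b : G)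
    (hp : a * b * a⁻¹ * b⁻¹ * (List.ofFn s).prod = 1) (K : Subgroup G) [K.Normal] (ε : ℝ) (hε : 0 ≤ ε)
    (hD : ∀ c, c ∉ K → rk K c ≤ ε * Nat.card G) :
    (Nat.card G : ℝ) * Nat.card K + (Nat.card G : ℝ) / 2 * (rk K 1 * nuK s K - ε * Nat.card G * N) ≤
      2 * ((Nat.card G : ℝ) * Nat.card K) * (quadB 1 s).re := by
  classical
  obtain ⟨E, i1, i2, i3, σ, h1, h2⟩ := exists_chi1 s a b hp
  have h3 := fix_le σ K
  have h4 : (quadB 1 s).re = (finrank ℂ (Pool.Agent.H52.VC.symInv σ) : ℝ) := by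
    rw [← h2, Complex.natCast_re]
  have h5 := frm s K ε hε hD
  have h6 : ∑ g, rk K g * (LinearMap.trace ℂ E (σ g)).re =
      ∑ g, rk K g * (chi s g).re + rk K 1 * (Nat.card G : ℝ) := by
    have h7 : ∀ g : G, rk K g * (LinearMap.trace ℂ E (σ g)).re =
        rk K g * (chi s g).re + (if g = 1 then rk K 1 * (Nat.card G : ℝ) else 0) := by
      intro g
      rw [h1 g, chiB_eq, Complex.add_re, mul_add]
      congr 1
      by_cases hg : g = 1
      · simp [hg]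
      · simp [hg]
    rw [sum_congr rfl fun g _ => h7 g, sum_add_distrib, sum_ite_eq', if_pos (mem_univ _)]
  rw [h4]
  rw [h6] at h3
  linarith

theorem gq1 : ∃ B : ℕ, ∀ (G : Type) [Group G] [Fintype G] (N : ℕ) (_hN5 : N ≤ 5)
    (s : Fin N → G) (a b : G) (_hp : a * b * a⁻¹ * b⁻¹ * (List.ofFn s).prod = 1)
    (_hgen : Subgroup.closure ({a, b} ∪ Set.range s) = ⊤)
    (c : G) (_hc : 1 / 1000 * (Nat.card G : ℝ) ≤ rt c) (δ : ℝ) (_hδ : 0 ≤ δ) (_hd : (quadB 1 s).re ≤ δ),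
    (Nat.card G : ℝ) ≤ B * (δ + 1) := by
  obtain ⟨e, he⟩ : ∃ e : ℕ, e = 420000 := ⟨_, rfl⟩
  have he0 : 0 < e := by omega
  have heR : (e : ℝ) = 420000 := by rw [he]; norm_num
  obtain ⟨m, hm⟩ : ∃ m : ℕ, m = beta e ^ e := ⟨_, rfl⟩
  refine ⟨504000 * m + 1100, fun G _ _ N hN5 s a b hp hgen c hroot δ hδ hd => ?_⟩
  by_contra hbig
  push Not at hbig
  push_cast at hbig
  have hm0 : (0 : ℝ) ≤ m := Nat.cast_nonneg m
  have hn1 : (0 : ℝ) < Nat.card G := by exact_mod_cast Nat.card_pos (α := G)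
  have hNR : (N : ℝ) ≤ 5 := by exact_mod_cast hN5
  obtain ⟨K, hK, hcard, hD⟩ := exists_max (G := G) e he0
  have hcK : c ∈ K := by
    by_contra hcK
    have h1 := hD c hcK
    have h2 := rt_le_rk K c
    rw [heR] at h1
    linarith
  have hrk : 1 / 1000 * (Nat.card G : ℝ) ≤ rk K 1 := by
    rw [← rk_of_mem K hcK]
    exact hroot.trans (rt_le_rk K c)
  rw [← hm] at hcard
  have hcR : (Nat.card K : ℝ) ≤ m := by exact_mod_cast hcard
  by_cases hall : ∀ i, s i ∈ K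
  · have h1 := rk_le_four s a b hp hgen K hall
    nlinarith
  push Not at hall
  obtain ⟨i₀, hi₀⟩ := hall
  have hterm : ∀ i, (0 : ℝ) ≤ 1 - 1 / (orderOf (QuotientGroup.mk (s i) : G ⧸ K) : ℝ) := by
    intro i
    have h1 : (1 : ℝ) ≤ (orderOf (QuotientGroup.mk (s i) : G ⧸ K) : ℝ) := by
      exact_mod_cast orderOf_pos (QuotientGroup.mk (s i) : G ⧸ K)
    have h2 : 1 / (orderOf (QuotientGroup.mk (s i) : G ⧸ K) : ℝ) ≤ 1 := by
      rw [div_le_one (by linarith)]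
      exact h1
    linarith
  have hgap : 1 / 2 ≤ nuK s K := by
    have h1 : (1 : ℝ) - 1 / (orderOf (QuotientGroup.mk (s i₀) : G ⧸ K) : ℝ) ≤ nuK s K :=
      single_le_sum (f := fun i => 1 - 1 / (orderOf (QuotientGroup.mk (s i) : G ⧸ K) : ℝ))
        (fun i _ => hterm i) (mem_univ i₀)
    have h2 : orderOf (QuotientGroup.mk (s i₀) : G ⧸ K) ≠ 1 := by
      rw [Ne, orderOf_eq_one_iff, QuotientGroup.eq_one_iff]
      exact hi₀
    have h3 : 2 ≤ orderOf (QuotientGroup.mk (s i₀) : G ⧸ K) := by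
      have := orderOf_pos (QuotientGroup.mk (s i₀) : G ⧸ K)
      omega
    have h4 : (2 : ℝ) ≤ (orderOf (QuotientGroup.mk (s i₀) : G ⧸ K) : ℝ) := by exact_mod_cast h3
    have h5 : 1 / (orderOf (QuotientGroup.mk (s i₀) : G ⧸ K) : ℝ) ≤ 1 / 2 :=
      one_div_le_one_div_of_le (by norm_num) h4
    linarith
  have hkey := key1 s a b hp K (1 / 420000) (by norm_num) (by
    intro c hc
    have h1 := hD c hc
    rw [heR] at h1
    linarith)
  obtain ⟨n, hn'⟩ : ∃ n : ℝ, n = Nat.card G := ⟨_, rfl⟩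
  obtain ⟨κ, hκ⟩ : ∃ κ : ℝ, κ = Nat.card K := ⟨_, rfl⟩
  obtain ⟨r, hr⟩ : ∃ r : ℝ, r = rk K 1 := ⟨_, rfl⟩
  obtain ⟨v, hv⟩ : ∃ v : ℝ, v = nuK s K := ⟨_, rfl⟩
  obtain ⟨d, hd'⟩ : ∃ d : ℝ, d = (quadB 1 s).re := ⟨_, rfl⟩
  rw [← hn', ← hκ, ← hr, ← hv, ← hd'] at hkey
  rw [← hn'] at hn1 hbig
  rw [← hn', ← hr] at hrk
  rw [← hv] at hgap
  rw [← hd'] at hd
  rw [← hκ] at hcR
  have hκ0 : 0 ≤ κ := by rw [hκ]; exact Nat.cast_nonneg _
  have h1 : n / 2000 ≤ r * v := by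
    have h2 : 1 / 1000 * n * (1 / 2) ≤ r * v :=
      mul_le_mul hrk hgap (by norm_num) (by linarith)
    linarith
  have h2 : 1 / 420000 * n * N ≤ n / 84000 := by
    have := mul_le_mul_of_nonneg_left hNR (by linarith : (0 : ℝ) ≤ 1 / 420000 * n)
    linarith
  have h3 : n / 84000 ≤ r * v - 1 / 420000 * n * N := by linarith
  have h4 : n / 2 * (n / 84000) ≤ n / 2 * (r * v - 1 / 420000 * n * N) :=
    mul_le_mul_of_nonneg_left h3 (by linarith)
  have h6 : 2 * (n * κ) * d ≤ 2 * (n * κ) * δ := mul_le_mul_of_nonneg_left hd (by positivity)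
  have h6' : 0 ≤ n * κ := by positivity
  have h7 : n * (n / 168000) ≤ n * (2 * κ * δ) := by nlinarith
  have h8 := le_of_mul_le_mul_left h7 hn1
  have h9 : κ * δ ≤ m * δ := mul_le_mul_of_nonneg_right hcR hδ
  have h10 : 0 ≤ (m : ℝ) * δ := mul_nonneg hm0 hδ
  nlinarith

end Pool.Agent.H6.LH
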