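import Pool.Agent.H54.SQ.Four

set_option autoImplicit false

/-!
PROJECT LH (MP_bf82d2_ag), module QPos.
PROOF. `q_ge`: `ge_self` or `ge_ne` (`Pool/Agent/H54/SQ/Ge.lean`; `5 / 108 ≤ 1 / 12`), `0 ≤ zz a ≤ 1 - y a` (`zz a` is `0` or `1 - 3 y a`).
`tensor_lb`: `tensor_formula`, the order of a conjugate is the same, `∑ i, ∑ j, (1 - y i) (1 - y j) = nu ^ 2`.
-/

namespace Pool.Agent.H6.LH

open Finset Pool.Agent.H82.CO Pool.Agent.H92.OG Pool.Agent.H54.SQ

variable {G : Type} [Group G] [Fintype G] {N : ℕ}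

omit [Fintype G] in
private theorem y_nonneg_QPos (a : G) : 0 ≤ y a := by
  unfold y
  positivity

omit [Fintype G] in
private theorem y_le_QPos (a : G) : y a ≤ 1 := by
  unfold y
  rcases Nat.eq_zero_or_pos (orderOf a) with h | h
  · rw [h]
    norm_num
  · have h1 : (1 : ℝ) ≤ orderOf a := by exact_mod_cast h
    rw [div_le_one (by linarith)]
    exact h1

omit [Fintype G] in
private theorem zz_le_QPos (a : G) : zz a ≤ 1 - y a := by
  have h1 := y_nonneg_QPos a
  have h2 := y_le_QPos a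
  unfold zz z
  exact max_le (by linarith) (by linarith)

theorem q_ge {a b : G} (ha : a ≠ 1) (hb : b ≠ 1) : (1 - y a) * (1 - y b) / 6 ≤ q a b := by
  have h1 : zz a * zz b ≤ (1 - y a) * (1 - y b) :=
    mul_le_mul (zz_le_QPos a) (zz_le_QPos b) (zz_nonneg b)
      ((zz_nonneg a).trans (zz_le_QPos a))
  have h0 : 0 ≤ zz a * zz b := mul_nonneg (zz_nonneg a) (zz_nonneg b)
  by_cases hab : a = b
  · subst hab
    have h2 := ge_self ha
    linarith
  · have h2 := ge_ne ha hb hab
    linarith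

theorem tensor_lb (s : Fin N → G) (hs : ∀ i, s i ≠ 1) :
    (Nat.card G : ℝ) * (1 - nu s) - 1 + (Nat.card G : ℝ) * nu s ^ 2 / 6 ≤ (quadInv s + extInv s).re := by
  rw [tensor_formula]
  have h1 : ∀ i j, (Nat.card G : ℝ) * ((1 - y (s i)) * (1 - y (s j)) / 6) ≤
      ∑ w : G, q (s i) (w * s j * w⁻¹) := by
    intro i j
    have h2 : ∀ w : G, (1 - y (s i)) * (1 - y (s j)) / 6 ≤ q (s i) (w * s j * w⁻¹) := by
      intro w
      have hb : w * s j * w⁻¹ ≠ 1 := by
        intro hc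
        apply hs j
        have h3 : s j = w⁻¹ * (w * s j * w⁻¹) * w := by group
        rw [h3, hc]
        group
      have h4 := q_ge (hs i) hb
      rwa [Pool.Agent.H78.OD.y_conj] at h4
    have h3 := Finset.sum_le_sum (s := univ) fun w _ => h2 w
    rw [Finset.sum_const, card_univ, nsmul_eq_mul, ← Nat.card_eq_fintype_card] at h3
    exact h3
  have h2 := Finset.sum_le_sum (s := univ) fun i _ =>
    Finset.sum_le_sum (s := (univ : Finset (Fin N))) fun j _ => h1 i j
  have h3 : ∑ i, ∑ j, (Nat.card G : ℝ) * ((1 - y (s i)) * (1 - y (s j)) / 6) =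
      (Nat.card G : ℝ) * nu s ^ 2 / 6 := by
    have hnu : nu s = ∑ i, (1 - y (s i)) := rfl
    have e1 : nu s ^ 2 = ∑ i, ∑ j, (1 - y (s i)) * (1 - y (s j)) := by
      rw [hnu, sq, Finset.sum_mul_sum]
    rw [e1, mul_div_assoc, Finset.sum_div, Finset.mul_sum]
    refine Finset.sum_congr rfl fun i _ => ?_
    rw [Finset.sum_div, Finset.mul_sum]
  rw [h3] at h2
  linarith

end Pool.Agent.H6.LH
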