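import Pool.Agent.H6.LH.Qua
import Pool.Agent.H6.LH.QPos

set_option autoImplicit false

/-!
PROJECT LH (MP_bf82d2_ag), module High.  Base genus `h ≥ 2`, at most five branch points.
PROOF. `two_quadInv` and `rho_le'` (`Pool/Agent/H82/SQ/FS.lean`), `1 / m ≤ 1 - 1 / m`, so `rho ≤ n nu`; `tensor_lb` (drop the square). With `quadB_eq`:
`2 quadB ≥ n (h - 1)^2 + n nu (h - 3 / 2) + 2 h + t (h - 1) + t nu / 2`, `t = rt 1 ≥ 0`. So with `k = h - 1 ≥ 1`: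
`quadB - (3 h - 3 + N) ≥ n k^2 / 2 + n nu (k - 1/2) / 2 - 2 k - 4` and `genusB = 1 + n k + n nu / 2`; `n nu (k - 1/2) / 2 ≥ n nu / 40`,
`n k^2 / 2 - n k / 20 ≥ (9/20) k^2` (`n ≥ 1`), `(9/20) k^2 - 2 k ≥ - 20 / 9`.
-/

namespace Pool.Agent.H6.LH

open Finset
open Pool.Agent.H82.CO (chi quadInv nu genus eps zeta rt)

variable {G : Type} [Group G] [Fintype G] {N : ℕ}

private theorem inv_le_High {g : G} (hg : g ≠ 1) : 1 / (orderOf g : ℝ) ≤ 1 - 1 / (orderOf g : ℝ) := by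
  have h1 : 2 ≤ orderOf g := by
    have h2 := orderOf_pos g
    have h3 : orderOf g ≠ 1 := fun h4 => hg (orderOf_eq_one_iff.1 h4)
    omega
  have h5 : (2 : ℝ) ≤ orderOf g := by exact_mod_cast h1
  have h6 : 1 / (orderOf g : ℝ) ≤ 1 / 2 := one_div_le_one_div_of_le (by norm_num) h5
  linarith

private theorem nu_nonneg_High (s : Fin N → G) (hs : ∀ i, s i ≠ 1) :
    ∑ i, 1 / (orderOf (s i) : ℝ) ≤ nu s ∧ 0 ≤ nu s := by
  have h1 : ∑ i, 1 / (orderOf (s i) : ℝ) ≤ nu s := by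
    unfold nu
    exact sum_le_sum fun i _ => inv_le_High (hs i)
  have h2 : 0 ≤ ∑ i, 1 / (orderOf (s i) : ℝ) := sum_nonneg fun i _ => by positivity
  exact ⟨h1, h2.trans h1⟩

/-- The arithmetic. -/
private theorem arith_High {n k ν : ℝ} (hn : 1 ≤ n) (hk : 1 ≤ k) (hν : 0 ≤ ν) :
    n * k / 20 + n * ν / 40 + 1 / 20 - 7 ≤ n * k ^ 2 / 2 + n * ν * (k - 1 / 2) / 2 - 2 * k - 4 := by
  have h1 : 0 ≤ n * ν := mul_nonneg (by linarith) hν
  have h2 : n * ν / 40 ≤ n * ν * (k - 1 / 2) / 2 := by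
    have h3 : 0 ≤ n * ν * (k - 1) := mul_nonneg h1 (by linarith)
    nlinarith [h3, h1]
  have h4 : 0 ≤ k ^ 2 / 2 - k / 20 - 9 / 20 * k ^ 2 := by nlinarith [hk]
  have h5 : k ^ 2 / 2 - k / 20 ≤ n * (k ^ 2 / 2 - k / 20) := by
    have h6 : 0 ≤ k ^ 2 / 2 - k / 20 := by nlinarith [hk]
    have h7 : 0 ≤ (n - 1) * (k ^ 2 / 2 - k / 20) := mul_nonneg (by linarith) h6
    linarith
  have h8 : -(20 / 9) ≤ 9 / 20 * k ^ 2 - 2 * k := by nlinarith [sq_nonneg (k - 20 / 9)]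
  have h9 : n * (k ^ 2 / 2 - k / 20) = n * k ^ 2 / 2 - n * k / 20 := by ring
  rw [h9] at h5
  linarith

theorem high (h : ℕ) (hh : 2 ≤ h) (s : Fin N → G) (hs : ∀ i, s i ≠ 1) (hN : N ≤ 5) :
    1 / 20 * genusB h s - 7 ≤ (quadB h s).re - (3 * (h : ℝ) - 3 + N) := by
  obtain ⟨hν1, hν⟩ := nu_nonneg_High s hs
  have hn1 : (1 : ℝ) ≤ Nat.card G := by exact_mod_cast Nat.card_pos
  have hn0 : (0 : ℝ) ≤ Nat.card G := by linarith
  have hk : (2 : ℝ) ≤ h := by exact_mod_cast hh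
  have hN' : (N : ℝ) ≤ 5 := by exact_mod_cast hN
  have hq := quadB_eq h s
  have h2q := Pool.Agent.H82.SQ.two_quadInv s
  have hrho : Pool.Agent.H82.SQ.rho s ≤ Nat.card G * nu s :=
    (Pool.Agent.H82.SQ.rho_le' s).trans (mul_le_mul_of_nonneg_left hν1 hn0)
  have hT := tensor_lb s hs
  have ht : 0 ≤ rt (1 : G) := Pool.Agent.H82.SQ.rt_nonneg 1
  have hsq : 0 ≤ (Nat.card G : ℝ) * nu s ^ 2 / 6 := by positivity
  have ht1 : 0 ≤ rt (1 : G) * ((h : ℝ) - 1) := mul_nonneg ht (by linarith)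
  have ht2 : 0 ≤ rt (1 : G) * nu s := mul_nonneg ht hν
  have hg : genusB h s = 1 + (Nat.card G : ℝ) * (2 * (h : ℝ) - 2 + nu s) / 2 := rfl
  have ha := arith_High (k := (h : ℝ) - 1) hn1 (by linarith) hν
  rw [hq, hg]
  generalize (quadInv s).re = q at *
  generalize (quadInv s + Pool.Agent.H82.CO.extInv s).re = T at *
  generalize Pool.Agent.H82.SQ.rho s = r at *
  generalize rt (1 : G) = t at *
  generalize nu s = ν at *
  generalize (Nat.card G : ℝ) = n at *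
  generalize (h : ℝ) = k at *
  nlinarith [h2q, hrho, hT, hsq, ht1, ht2, ha, hN']

end Pool.Agent.H6.LH
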