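import Pool.Agent.H6.LH.Qua
import Pool.Agent.H6.LH.QPos
import Pool.Agent.H82.SQ.Cor

set_option autoImplicit false

/-!
PROJECT LH (MP_bf82d2_ag), module Roots1.  Base genus `1`, at least one branch point: many square roots.
PROOF. `quadB_eq` with `h = 1`, `two_quadInv`, `tensor_lb`: `2 quadB ≥ n nu^2 / 6 + 2 + t nu / 2 - rho / 2`, so `rho ≥ n nu^2 / 3 - 4 δ ≥ n N^2 / 12 - 4 δ` (`nu ≥ N / 2`).
If all `rt (s i ^ k) < r := n / 12 - 4 δ` for `s i ^ k ≠ 1` then `rho < N r` (`rho_lt`, `r > 0`), but `N r ≤ n N^2 / 12 - 4 δ` (`N ≥ 1`).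
-/

namespace Pool.Agent.H6.LH

open Finset
open Pool.Agent.H82.CO (chi quadInv nu genus eps zeta rt)
open Pool.Agent.H82.SQ

variable {G : Type} [Group G] [Fintype G] {N : ℕ}

private theorem nu_ge_Roots1 (s : Fin N → G) (hs : ∀ i, s i ≠ 1) : (N : ℝ) / 2 ≤ nu s := by
  unfold nu
  have h1 : ∀ i ∈ (univ : Finset (Fin N)), (1 / 2 : ℝ) ≤ 1 - 1 / (orderOf (s i) : ℝ) := by
    intro i _
    have h2 : orderOf (s i) ≠ 1 := fun h => hs i (orderOf_eq_one_iff.1 h)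
    have h3 : 0 < orderOf (s i) := orderOf_pos (s i)
    have h4 : (2 : ℝ) ≤ orderOf (s i) := by
      have : 2 ≤ orderOf (s i) := by omega
      exact_mod_cast this
    have h5 : 1 / (orderOf (s i) : ℝ) ≤ 1 / 2 := one_div_le_one_div_of_le (by norm_num) h4
    linarith
  have h2 := sum_le_sum h1
  rw [sum_const, card_univ, Fintype.card_fin, nsmul_eq_mul] at h2
  linarith

theorem roots1 (s : Fin N → G) (hs : ∀ i, s i ≠ 1) (hN : 1 ≤ N) {δ : ℝ} (hδ : 0 ≤ δ) (hd : (quadB 1 s).re ≤ δ) :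
    ∃ i, ∃ k : ℕ, s i ^ k ≠ 1 ∧ 1 / 12 * (Nat.card G : ℝ) - 4 * δ ≤ rt (s i ^ k) := by
  have hn0 : (0 : ℝ) ≤ Nat.card G := Nat.cast_nonneg _
  have hN' : (1 : ℝ) ≤ N := by exact_mod_cast hN
  by_cases hr : 1 / 12 * (Nat.card G : ℝ) - 4 * δ ≤ 0
  · refine ⟨⟨0, hN⟩, 1, ?_, hr.trans (rt_nonneg _)⟩
    rw [pow_one]
    exact hs _
  push Not at hr
  by_contra hcon
  push Not at hcon
  have h1 := rho_lt s hs hN hr hcon
  have h2 := quadB_eq 1 s
  have h3 := two_quadInv s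
  have h4 := tensor_lb s hs
  have h5 := nu_ge_Roots1 s hs
  have h6 := rt_nonneg (1 : G)
  have h7 : 0 ≤ rt (1 : G) * nu s := mul_nonneg h6 (by linarith)
  have h8 : (N : ℝ) ^ 2 / 4 ≤ nu s ^ 2 := by nlinarith
  have h9 := mul_le_mul_of_nonneg_left h8 hn0
  have h10 : (Nat.card G : ℝ) * N ≤ (Nat.card G : ℝ) * N ^ 2 := by
    refine mul_le_mul_of_nonneg_left ?_ hn0
    nlinarith
  have h11 : δ ≤ N * δ := by nlinarith
  push_cast at h2
  nlinarith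

end Pool.Agent.H6.LH
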