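import Pool.Agent.H6.LG.Main
import Pool.Agent.H6.LH.BigH
import Pool.Agent.H6.LH.High
import Pool.Agent.H6.LH.Roots1
import Pool.Agent.H6.LH.GQ1

set_option autoImplicit false

/-!
PROJECT LH (MP_bf82d2_ag), module Main.  All base genera.
-/

namespace Pool.Agent.H6.LH

open Finset Module
open Pool.Agent.H82.CO (chi quadInv nu genus eps zeta rt)

theorem nu_leB {G : Type} [Group G] [Fintype G] {N : ℕ} (s : Fin N → G) : nu s ≤ N := Pool.Agent.H6.LG.nu_le s

/-- base genus `1`, at most five branch points -/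
theorem one_five : ∃ C : ℕ, ∀ (G : Type) [Group G] [Fintype G] (N : ℕ) (_hN : 1 ≤ N) (_hN5 : N ≤ 5)
    (s : Fin N → G) (a b : G) (_hs : ∀ i, s i ≠ 1) (_hp : a * b * a⁻¹ * b⁻¹ * (List.ofFn s).prod = 1)
    (_hgen : Subgroup.closure ({a, b} ∪ Set.range s) = ⊤),
    0 ≤ (quadB 1 s).re ∧ (Nat.card G : ℝ) ≤ C * ((quadB 1 s).re + 1) := by
  obtain ⟨B, hB⟩ := gq1
  refine ⟨B + 100, fun G _ _ N hN hN5 s a b hs hp hgen => ?_⟩
  have hd : 0 ≤ (quadB 1 s).re := by
    obtain ⟨E, _, _, _, σ, -, h⟩ := exists_chi1 s a b hp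
    rw [← h, Complex.natCast_re]
    exact Nat.cast_nonneg _
  refine ⟨hd, ?_⟩
  obtain ⟨i, k, -, hroot⟩ := roots1 s hs hN hd le_rfl
  have hB0 : (0 : ℝ) ≤ B := Nat.cast_nonneg _
  have h1 : 0 ≤ (B : ℝ) * ((quadB 1 s).re + 1) := mul_nonneg hB0 (by linarith)
  push_cast
  by_cases h2 : (Nat.card G : ℝ) ≤ 100 * ((quadB 1 s).re + 1)
  · linarith
  push Not at h2
  have h3 := hB G N hN5 s a b hp hgen (s i ^ k) (by linarith) _ hd le_rfl
  linarith

/-- The codimension grows at least linearly with the genus, for all base genera. -/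
theorem main : ∃ ε : ℝ, 0 < ε ∧ ∀ (G : Type) [Group G] [Fintype G] (h N : ℕ) (a b : Fin h → G) (s : Fin N → G),
    (h = 0 → 4 ≤ N) → (∀ i, s i ≠ 1) →
    (List.ofFn fun j => a j * b j * (a j)⁻¹ * (b j)⁻¹).prod * (List.ofFn s).prod = 1 →
    Subgroup.closure (Set.range a ∪ Set.range b ∪ Set.range s) = ⊤ → 1 < genusB h s →
    ε * genusB h s - 7 ≤ (quadB h s).re - (3 * (h : ℝ) - 3 + N) ∧
      (h = 0 → ε * genusB h s - 4 ≤ (quadB h s).re - (3 * (h : ℝ) - 3 + N)) := by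
  obtain ⟨ε, hε, h0⟩ := Pool.Agent.H6.LG.main
  obtain ⟨C, hC⟩ := one_five
  have hC0 : (0 : ℝ) ≤ C := Nat.cast_nonneg _
  obtain ⟨e, he⟩ : ∃ e : ℝ, e = min ε (1 / (1000 * ((C : ℝ) + 1))) := ⟨_, rfl⟩
  have he1 : e ≤ ε := by rw [he]; exact min_le_left _ _
  have he2 : e ≤ 1 / (1000 * ((C : ℝ) + 1)) := by rw [he]; exact min_le_right _ _
  have he3 : 1 / (1000 * ((C : ℝ) + 1)) ≤ 1 / 1000 :=
    one_div_le_one_div_of_le (by norm_num) (by linarith)
  refine ⟨e, by rw [he]; exact lt_min hε (by positivity), fun G _ _ h N a b s hN hs hp hgen hg => ?_⟩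
  have hle : ∀ c : ℝ, e ≤ c → e * genusB h s ≤ c * genusB h s := fun c hc =>
    mul_le_mul_of_nonneg_right hc (by linarith)
  rcases Nat.eq_zero_or_pos h with hh | hh
  · subst hh
    have h1 : (quadB 0 s).re = (quadInv s).re := by
      rw [quadB_eq]
      push_cast
      ring
    have h2 : genusB 0 s = genus s := by
      rw [genusB_eq, Pool.Agent.H82.CO.genus_eq]
      push_cast
      ring
    rw [List.ofFn_zero, List.prod_nil, one_mul] at hp
    have hgen' : Subgroup.closure (Set.range s) = ⊤ := by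
      rw [← hgen]
      congr 1
      simp
    rw [h2] at hg
    have h3 := h0 G N (hN rfl) s hs hp hgen' hg
    have h4 := hle ε he1
    rw [h2] at h4 ⊢
    rw [h1]
    push_cast
    exact ⟨by linarith, fun _ => by linarith⟩
  by_cases hN6 : 6 ≤ N
  · have h1 := bigH h hh s hs hN6
    have h2 := hle (1 / 1000) (he2.trans he3)
    exact ⟨by linarith, fun h3 => absurd h3 (by omega)⟩
  have hN5 : N ≤ 5 := by omega
  by_cases hh2 : 2 ≤ h
  · have h1 := high h hh2 s hs hN5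
    have h2 := hle (1 / 20) (by linarith)
    exact ⟨by linarith, fun h3 => absurd h3 (by omega)⟩
  obtain rfl : h = 1 := by omega
  have hN1 : 1 ≤ N := by
    by_contra hcon
    have hN0 : N = 0 := by omega
    subst hN0
    rw [genusB_eq] at hg
    have h1 : nu s = 0 := by
      unfold nu
      exact Finset.sum_of_isEmpty _
    rw [h1] at hg
    norm_num at hg
  have hp' : a 0 * b 0 * (a 0)⁻¹ * (b 0)⁻¹ * (List.ofFn s).prod = 1 := by
    simpa using hp
  have hgen' : Subgroup.closure ({a 0, b 0} ∪ Set.range s) = ⊤ := by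
    rw [← hgen]
    congr 1
    congr 1
    ext x
    simp [Fin.exists_fin_one, eq_comm]
  obtain ⟨hd, h1⟩ := hC G N hN1 hN5 s (a 0) (b 0) hs hp' hgen'
  have hNR : (N : ℝ) ≤ 5 := by exact_mod_cast hN5
  have h2 : genusB 1 s ≤ 1 + 5 / 2 * (Nat.card G : ℝ) := by
    rw [genusB_eq]
    have h3 := nu_leB s
    have h4 : (Nat.card G : ℝ) * nu s ≤ (Nat.card G : ℝ) * 5 :=
      mul_le_mul_of_nonneg_left (by linarith) (Nat.cast_nonneg _)
    push_cast
    linarith
  have h4 : genusB 1 s ≤ 1000 * ((C : ℝ) + 1) * ((quadB 1 s).re + 1) := by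
    have h5 : 0 ≤ (C : ℝ) * (quadB 1 s).re := mul_nonneg hC0 hd
    nlinarith
  have h5 : 1 / (1000 * ((C : ℝ) + 1)) * genusB 1 s ≤ (quadB 1 s).re + 1 := by
    rw [one_div_mul_eq_div, div_le_iff₀ (by positivity)]
    linarith
  have h6 := hle _ he2
  push_cast
  exact ⟨by linarith, fun h3 => h3.elim⟩

end Pool.Agent.H6.LH
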