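import Pool.Agent.H6.LG.Cor
import Pool.Agent.H6.LH.Main

set_option autoImplicit false

/-!
PROJECT LH (MP_bf82d2_ag), module Cor.  The order of the group, the genus of the base and the number of the branch points, in terms of the genus.
-/

namespace Pool.Agent.H6.LH

open Finset
open Pool.Agent.H82.CO (chi quadInv nu genus eps zeta rt)

variable {G : Type} [Group G] [Fintype G] {N : ℕ}

theorem genusB_zero (s : Fin N → G) : genusB 0 s = genus s := by
  rw [genusB_eq, Pool.Agent.H82.CO.genus_eq]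
  push_cast
  ring

theorem card_le (h : ℕ) (s : Fin N → G) (hN : h = 0 → 4 ≤ N) (hs : ∀ i, s i ≠ 1) (hg : 1 < genusB h s) :
    (Nat.card G : ℝ) ≤ 12 * (genusB h s - 1) := by
  have hn : (0 : ℝ) < Nat.card G := by exact_mod_cast Nat.card_pos (α := G)
  rcases (by omega : h = 0 ∨ h = 1 ∨ 2 ≤ h) with h0 | h1 | h2
  · subst h0
    rw [genusB_zero] at hg ⊢
    exact Pool.Agent.H6.LG.card_le_genus s (hN rfl) hs hg
  · subst h1
    have hν := Pool.Agent.H82.CO.nu_ge s hs
    have hN1 : 1 ≤ N := by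
      by_contra hcon
      have hN0 : N = 0 := by omega
      subst hN0
      rw [genusB_eq] at hg
      have h1 : nu s = 0 := by
        unfold nu
        exact Finset.sum_of_isEmpty _
      rw [h1] at hg
      norm_num at hg
    have hNR : (1 : ℝ) ≤ N := by exact_mod_cast hN1
    rw [genusB_eq]
    have h3 : (Nat.card G : ℝ) * (1 / 2) ≤ (Nat.card G : ℝ) * nu s :=
      mul_le_mul_of_nonneg_left (by linarith) hn.le
    push_cast
    linarith
  · have hν : 0 ≤ nu s := by
      have := Pool.Agent.H82.CO.nu_ge s hs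
      have : (0 : ℝ) ≤ N := Nat.cast_nonneg _
      linarith
    have hh : (2 : ℝ) ≤ h := by exact_mod_cast h2
    rw [genusB_eq]
    have h3 : (Nat.card G : ℝ) * 2 ≤ (Nat.card G : ℝ) * (2 * (h : ℝ) - 2 + nu s) :=
      mul_le_mul_of_nonneg_left (by linarith) hn.le
    linarith

theorem base_le (h : ℕ) (s : Fin N → G) (hs : ∀ i, s i ≠ 1) (hg : 1 < genusB h s) : (h : ℝ) ≤ genusB h s := by
  have hn : (1 : ℝ) ≤ Nat.card G := by exact_mod_cast Nat.card_pos (α := G)
  rcases Nat.eq_zero_or_pos h with h0 | h0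
  · subst h0
    push_cast
    linarith
  · have hν : 0 ≤ nu s := by
      have := Pool.Agent.H82.CO.nu_ge s hs
      have : (0 : ℝ) ≤ N := Nat.cast_nonneg _
      linarith
    have hh : (1 : ℝ) ≤ h := by exact_mod_cast h0
    rw [genusB_eq]
    have h3 : 1 * (2 * (h : ℝ) - 2 + nu s) ≤ (Nat.card G : ℝ) * (2 * (h : ℝ) - 2 + nu s) :=
      mul_le_mul_of_nonneg_right hn (by linarith)
    linarith

theorem branch_le (h : ℕ) (s : Fin N → G) (hN : h = 0 → 4 ≤ N) (hs : ∀ i, s i ≠ 1) (hg : 1 < genusB h s) :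
    (N : ℝ) ≤ 2 * genusB h s + 2 := by
  rcases Nat.eq_zero_or_pos h with h0 | h0
  · subst h0
    rw [genusB_zero]
    exact Pool.Agent.H6.LG.branch_le_genus s (hN rfl) hs
  · rcases Nat.eq_zero_or_pos N with hN0 | hN0
    · subst hN0
      push_cast
      linarith
    have hn : (2 : ℝ) ≤ Nat.card G := by
      have h1 : Nontrivial G := ⟨⟨s ⟨0, hN0⟩, 1, hs _⟩⟩
      exact_mod_cast Finite.one_lt_card_iff_nontrivial.2 h1
    have hν := Pool.Agent.H82.CO.nu_ge s hs
    have hh : (1 : ℝ) ≤ h := by exact_mod_cast h0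
    have hNR : (0 : ℝ) ≤ N := Nat.cast_nonneg _
    rw [genusB_eq]
    have h3 : 2 * (2 * (h : ℝ) - 2 + nu s) ≤ (Nat.card G : ℝ) * (2 * (h : ℝ) - 2 + nu s) :=
      mul_le_mul_of_nonneg_right hn (by linarith)
    linarith

end Pool.Agent.H6.LH
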