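import Pool.Agent.H82.CO.Defs
import Pool.Agent.H82.SQ.FS

set_option autoImplicit false

/-!
# Galois covers of curves of genus `h` (MP_bf82d2_ag, project LH)

The same as `Pool/Agent/H82/CO/Defs.lean` for a Galois cover `C → C'` with finite group `G` of a curve
`C'` of genus `h`, branched over `N` points, with local monodromies `s 0, …, s (N - 1)`. By the theorem
of Chevalley and Weil the character of `H⁰(C, K)` (or of its dual) is `chiB h s`.
-/

namespace Pool.Agent.H6.LH

open Finset
open Pool.Agent.H82.CO (chi quadInv nu genus eps zeta)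

variable {G : Type} [Group G] [Fintype G] {N : ℕ}

open Classical in
/-- The character of `H⁰(C, K)`: `1 + (h - 1) (regular character) +` the sum of the functions induced from
the cyclic groups generated by the local monodromies. -/
noncomputable def chiB (h : ℕ) (s : Fin N → G) (g : G) : ℂ :=
  1 + ((h : ℂ) - 1) * (if g = 1 then (Nat.card G : ℂ) else 0) +
    ∑ i, (1 / (orderOf (s i) : ℂ)) * ∑ x : G, ∑ k ∈ range (orderOf (s i)),
      if x * s i ^ k * x⁻¹ = g then eps (orderOf (s i)) k else 0

/-- The dimension of the space of `G`-invariants in the symmetric square of `H⁰(C, K)`. -/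
noncomputable def quadB (h : ℕ) (s : Fin N → G) : ℂ :=
  (1 / (2 * (Nat.card G : ℂ))) * ∑ g : G, (chiB h s g ^ 2 + chiB h s (g ^ 2))

/-- The genus of `C`, by the formula of Riemann and Hurwitz. -/
noncomputable def genusB (h : ℕ) (s : Fin N → G) : ℝ :=
  1 + (Nat.card G : ℝ) * (2 * (h : ℝ) - 2 + ∑ i, (1 - 1 / (orderOf (s i) : ℝ))) / 2

open Classical in
theorem chiB_eq (h : ℕ) (s : Fin N → G) (g : G) :
    chiB h s g = chi s g + (h : ℂ) * (if g = 1 then (Nat.card G : ℂ) else 0) := by
  unfold chiB chi
  ring

theorem genusB_eq (h : ℕ) (s : Fin N → G) : genusB h s = 1 + (Nat.card G : ℝ) * (2 * (h : ℝ) - 2 + nu s) / 2 := rfl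

end Pool.Agent.H6.LH
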