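import Pool.Agent.H6.LH.Defs
import Pool.Agent.H82.SQ.FS
import Pool.Agent.H6.FF.Fx

set_option autoImplicit false

/-!
PROJECT LH (MP_bf82d2_ag), module Qua.
PROOF. `chiB_eq`; `(chi g + h n [g = 1])^2 + chi (g^2) + h n [g^2 = 1] = chi g ^ 2 + chi (g ^ 2) + 2 h n chi 1 [g = 1] + h^2 n^2 [g = 1] + h n [g ^ 2 = 1]`; sum over
`g`, `rt 1 = #{x : x ^ 2 = 1}` (`Pool.Agent.H82.CO.rt`); `chi s 1 = 1 + n (nu - 2) / 2` is `Pool.Agent.H6.FF.chi_one'`.
-/

namespace Pool.Agent.H6.LH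

open Finset
open Pool.Agent.H82.CO (chi quadInv nu genus eps zeta rt)

variable {G : Type} [Group G] [Fintype G] {N : ℕ}

private theorem quadB_Qua (h : ℕ) (s : Fin N → G) : quadB h s = quadInv s +
    ((h * (1 + (Nat.card G : ℝ) * (nu s - 2) / 2) + h ^ 2 * (Nat.card G : ℝ) / 2 +
      h * rt (1 : G) / 2 : ℝ) : ℂ) := by
  classical
  have hn : (Nat.card G : ℂ) ≠ 0 := Nat.cast_ne_zero.2 Nat.card_pos.ne'
  have h1 : ∀ g : G, chiB h s g ^ 2 + chiB h s (g ^ 2) =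
      (chi s g ^ 2 + chi s (g ^ 2)) +
        ((if g = 1 then 2 * (h : ℂ) * (Nat.card G : ℂ) * chi s g + (h : ℂ) ^ 2 * (Nat.card G : ℂ) ^ 2
          else 0) + (h : ℂ) * (Nat.card G : ℂ) * (if g ^ 2 = 1 then 1 else 0)) := by
    intro g
    rw [chiB_eq, chiB_eq]
    by_cases hg : g = 1
    · rw [if_pos hg, if_pos hg]
      split_ifs <;> ring
    · rw [if_neg hg, if_neg hg]
      split_ifs <;> ring
  have h2 : (∑ g : G, (if g ^ 2 = 1 then (1 : ℂ) else 0)) = ((rt (1 : G) : ℝ) : ℂ) := by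
    unfold rt
    push_cast
    refine Finset.sum_congr rfl fun g _ => ?_
    split_ifs <;> simp
  unfold quadB quadInv
  have h3 : (∑ g : G, (if g = 1 then 2 * (h : ℂ) * (Nat.card G : ℂ) * chi s g +
      (h : ℂ) ^ 2 * (Nat.card G : ℂ) ^ 2 else 0)) =
      2 * (h : ℂ) * (Nat.card G : ℂ) * chi s 1 + (h : ℂ) ^ 2 * (Nat.card G : ℂ) ^ 2 := by
    rw [Finset.sum_eq_single (1 : G), if_pos rfl]
    · intro b _ hb
      rw [if_neg hb]
    · intro hb
      exact absurd (mem_univ _) hb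
  have h4 : (∑ g : G, (chiB h s g ^ 2 + chiB h s (g ^ 2))) =
      (∑ g : G, (chi s g ^ 2 + chi s (g ^ 2))) +
        ((2 * (h : ℂ) * (Nat.card G : ℂ) * chi s 1 + (h : ℂ) ^ 2 * (Nat.card G : ℂ) ^ 2) +
          (h : ℂ) * (Nat.card G : ℂ) * ((rt (1 : G) : ℝ) : ℂ)) := by
    rw [Finset.sum_congr rfl fun g _ => h1 g, Finset.sum_add_distrib, Finset.sum_add_distrib (f :=
      fun g : G => (if g = 1 then 2 * (h : ℂ) * (Nat.card G : ℂ) * chi s g +
      (h : ℂ) ^ 2 * (Nat.card G : ℂ) ^ 2 else 0)), h3, ← Finset.mul_sum, h2]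
  rw [h4, Pool.Agent.H6.FF.chi_one']
  push_cast
  field_simp

theorem quadB_eq (h : ℕ) (s : Fin N → G) : (quadB h s).re = (quadInv s).re +
    h * (1 + (Nat.card G : ℝ) * (nu s - 2) / 2) + h ^ 2 * (Nat.card G : ℝ) / 2 + h * rt (1 : G) / 2 := by
  rw [quadB_Qua, Complex.add_re, Complex.ofReal_re]
  ring

end Pool.Agent.H6.LH
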