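import Pool.Agent.H6.LH.Defs
import Pool.Agent.H11.GQ.Rep

set_option autoImplicit false

/-!
PROJECT LH (MP_bf82d2_ag), module Rep1.  Base genus `1`: the representation with character `chiB 1 s`.
PROOF. As `Pool.Agent.H11.GQ.exists_chi` (`Pool/Agent/H11/GQ/Rep.lean`): `exists_rep_of (chiB 1 s)`; `chiB_eq`, `chi_conj`, `chi_inv`. For `W` minimal and its unitary
form `ρ'`: by `pair_eq` the pairing is `pv s ρ' + finrank W` (the regular character pairs to `trace (ρ' 1)`), `= ∑ i, (angp (ρ' (s i)) - finrank (fixS (ρ' (s i)))) +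
finrank (fixG ρ' ⊤)`. It is `≥ 0` (`angp U ≥ finrank (fixS U)`: the angles are in `(0, 1]`, `1` for the eigenvalue `1`; see `Pool/Agent/H52/VC/Ang.lean`, `MuG.lean`:
`chain` for the list `[s i]`, or `angp_eq` with `udiag`) and an integer: `det (ρ' ((List.ofFn s).prod)) = ee (∑ i, angp (ρ' (s i)))` (`det_ee`, as in the proof of `pv_nat`) and
`(List.ofFn s).prod = (a * b * a⁻¹ * b⁻¹)⁻¹` has determinant `1` (`LinearMap.det` is multiplicative; `ee_eq_one`). The last equation: `symInv_eq`, `quadB`.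
-/

namespace Pool.Agent.H6.LH

open Finset Module
open Pool.Agent.H93.Hup (Inv MinInv)
open Pool.Agent.H52.VC

private theorem angp_ge_Rep1 {V : Type} [NormedAddCommGroup V] [InnerProductSpace ℂ V] [FiniteDimensional ℂ V]
    (U : V →ₗ[ℂ] V) (hU : IsU U) : (finrank ℂ (fixS U) : ℝ) ≤ angp U := by
  classical
  obtain ⟨b, t, ht, hb⟩ := udiag U hU
  have hb' : ∀ j, U (b.toBasis j) = ee (t j) • b.toBasis j := by
    intro j
    rw [OrthonormalBasis.coe_toBasis]
    exact hb j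
  rw [angp_eq U b.toBasis t ht hb', finrank_fixS U b.toBasis t ht hb', Finset.card_filter]
  push_cast
  refine Finset.sum_le_sum fun j _ => ?_
  split_ifs with h
  · rw [h]
  · exact (ht j).1.le

private theorem nat_Rep1 {G : Type} [Group G] [Fintype G] {V : Type} [NormedAddCommGroup V]
    [InnerProductSpace ℂ V] [FiniteDimensional ℂ V] {N : ℕ} (s : Fin N → G) (a b : G)
    (hp : a * b * a⁻¹ * b⁻¹ * (List.ofFn s).prod = 1) (ρ : Representation ℂ G V)
    (hρ : ∀ g, IsU (ρ g)) : ∃ m : ℕ, pv s ρ + finrank ℂ V = m := by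
  have h10 : pv s ρ = ∑ i, (angp (ρ (s i)) - (finrank ℂ (fixS (ρ (s i))) : ℝ)) - finrank ℂ V +
      finrank ℂ (fixG ρ ⊤) := rfl
  have hpos : 0 ≤ pv s ρ + finrank ℂ V := by
    rw [h10]
    have h1 : 0 ≤ ∑ i, (angp (ρ (s i)) - (finrank ℂ (fixS (ρ (s i))) : ℝ)) :=
      sum_nonneg fun i _ => sub_nonneg.2 (angp_ge_Rep1 _ (hρ _))
    have h2 : (0 : ℝ) ≤ finrank ℂ (fixG ρ ⊤) := Nat.cast_nonneg _
    linarith
  have hone : LinearMap.det (ρ 1) = 1 := by
    rw [map_one]
    exact LinearMap.det_id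
  have hmul : ∀ x y : G, LinearMap.det (ρ (x * y)) = LinearMap.det (ρ x) * LinearMap.det (ρ y) := by
    intro x y
    rw [map_mul, map_mul]
  have hdet : ∀ l : List G, LinearMap.det (ρ l.prod) = ee ((l.map fun g => angp (ρ g)).sum) := by
    intro l
    induction l with
    | nil =>
      rw [List.prod_nil, hone, List.map_nil, List.sum_nil]
      exact ((ee_eq_one 0).2 ⟨0, by simp⟩).symm
    | cons g l ih =>
      rw [List.prod_cons, hmul, ih, det_ee (ρ g) (hρ g), List.map_cons, List.sum_cons, ee_add]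
  have hprod : LinearMap.det (ρ (List.ofFn s).prod) = 1 := by
    have ha : LinearMap.det (ρ a) * LinearMap.det (ρ a⁻¹) = 1 := by
      rw [← hmul, mul_inv_cancel, hone]
    have hb : LinearMap.det (ρ b) * LinearMap.det (ρ b⁻¹) = 1 := by
      rw [← hmul, mul_inv_cancel, hone]
    have h1 : LinearMap.det (ρ a) * LinearMap.det (ρ b) * LinearMap.det (ρ a⁻¹) *
        LinearMap.det (ρ b⁻¹) * LinearMap.det (ρ (List.ofFn s).prod) = 1 := by
      rw [← hmul, ← hmul, ← hmul, ← hmul, hp, hone]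
    calc LinearMap.det (ρ (List.ofFn s).prod)
        = (LinearMap.det (ρ a) * LinearMap.det (ρ a⁻¹)) *
          (LinearMap.det (ρ b) * LinearMap.det (ρ b⁻¹)) * LinearMap.det (ρ (List.ofFn s).prod) := by
            rw [ha, hb, one_mul, one_mul]
      _ = 1 := by rw [← h1]; ring
  have hsum : ((List.ofFn s).map fun g => angp (ρ g)).sum = ∑ i, angp (ρ (s i)) := by
    rw [List.map_ofFn, List.sum_ofFn]
    rfl
  have h4 : ee (∑ i, angp (ρ (s i))) = 1 := by
    rw [← hsum, ← hdet, hprod]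
  obtain ⟨k, hk⟩ := (ee_eq_one _).1 h4
  obtain ⟨z, hz⟩ : ∃ z : ℤ, pv s ρ + finrank ℂ V = z := by
    refine ⟨k - ∑ i, (finrank ℂ (fixS (ρ (s i))) : ℤ) + finrank ℂ (fixG ρ ⊤), ?_⟩
    rw [h10, Finset.sum_sub_distrib, hk]
    push_cast
    ring
  rw [hz] at hpos
  have hz0 : 0 ≤ z := by exact_mod_cast hpos
  refine ⟨z.toNat, ?_⟩
  rw [hz]
  have h5 : ((z.toNat : ℤ) : ℝ) = (z : ℝ) := by rw [Int.toNat_of_nonneg hz0]
  rw [← h5]
  norm_cast

theorem exists_chi1 {G : Type} [Group G] [Fintype G] {N : ℕ} (s : Fin N → G) (a b : G)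
    (hp : a * b * a⁻¹ * b⁻¹ * (List.ofFn s).prod = 1) :
    ∃ (E : Type) (_ : AddCommGroup E) (_ : Module ℂ E) (_ : FiniteDimensional ℂ E) (σ : Representation ℂ G E),
      (∀ g, LinearMap.trace ℂ E (σ g) = chiB 1 s g) ∧ (finrank ℂ (symInv σ) : ℂ) = quadB 1 s := by
  classical
  have hG : (Nat.card G : ℂ) ≠ 0 := Nat.cast_ne_zero.2 Nat.card_pos.ne'
  obtain ⟨E, i1, i2, i3, σ, hσ⟩ := exists_rep_of (chiB 1 s) (by
      intro g x
      rw [chiB_eq, chiB_eq, chi_conj]
      congr 2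
      by_cases h : g = 1
      · rw [if_pos h, if_pos (by rw [h, mul_one, mul_inv_cancel])]
      · rw [if_neg h, if_neg (fun h1 => h (by rwa [conj_eq_one_iff] at h1))]) (by
      intro g
      rw [chiB_eq, chiB_eq, chi_inv, map_add, map_mul]
      congr 1
      by_cases h : g = 1
      · rw [if_pos h, if_pos (by rw [h, inv_one])]
        simp
      · rw [if_neg h, if_neg (fun h1 => h (inv_eq_one.1 h1))]
        simp) (by
      intro W hW
      obtain ⟨ρ', e, hu, he⟩ := exists_unitary (subR lam W hW.2.1)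
      obtain ⟨m, hm⟩ := nat_Rep1 s a b hp ρ' hu
      refine ⟨m, ?_⟩
      have h1 : ∀ g : G, LinearMap.trace ℂ W (subR lam W hW.2.1 g⁻¹)
          = LinearMap.trace ℂ (EuclideanSpace ℂ (Fin (finrank ℂ W))) (ρ' g⁻¹) := fun g =>
        trace_tr (subR lam W hW.2.1) ρ' e he g⁻¹
      rw [Finset.sum_congr rfl fun g _ => by rw [h1 g, chiB_eq, add_mul], Finset.sum_add_distrib,
        mul_add, pair_eq s ρ' hu]
      have h2 : ∑ g : G, ((1 : ℕ) : ℂ) * (if g = 1 then (Nat.card G : ℂ) else 0) *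
          LinearMap.trace ℂ (EuclideanSpace ℂ (Fin (finrank ℂ W))) (ρ' g⁻¹) =
          (Nat.card G : ℂ) * (finrank ℂ (EuclideanSpace ℂ (Fin (finrank ℂ W))) : ℂ) := by
        rw [Finset.sum_eq_single (1 : G)]
        · rw [if_pos rfl, inv_one, map_one, Nat.cast_one, one_mul, LinearMap.trace_one]
        · intro g _ hg
          rw [if_neg hg, mul_zero, zero_mul]
        · intro h
          exact absurd (mem_univ _) h
      rw [h2, ← mul_assoc, one_div, inv_mul_cancel₀ hG, one_mul]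
      have h3 := congrArg (fun r : ℝ => (r : ℂ)) hm
      push_cast at h3
      exact h3)
  refine ⟨E, i1, i2, i3, σ, hσ, ?_⟩
  rw [symInv_eq, quadB]
  simp only [hσ]

end Pool.Agent.H6.LH
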